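import Pool.Agent.W133.DQ.StC

set_option autoImplicit false
set_option maxHeartbeats 4000000

open scoped ContDiff
open Set Filter Topology

namespace Pool.Agent.W775.DQ

open Pool.Agent.W133.DQ

theorem ext0 (hG : S_GERM) : S_EXT0 := by
  intro h η hη hh h0 hd
  let b : ContDiffBump (0 : P2) := ⟨η / 4, η / 2, by positivity, by linarith⟩
  have hb1 : ∀ p : P2, ‖p‖ ≤ η / 4 → b p = 1 := fun p hp =>
    b.one_of_mem_closedBall (by simpa [b] using hp)
  have hb0 : ∀ p : P2, η / 2 ≤ ‖p‖ → b p = 0 := fun p hp =>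
    b.zero_of_le_dist (by simpa [b] using hp)
  have hbs : ContDiff ℝ ∞ (fun p : P2 => b p) := b.contDiff
  set g : P2 → P2 := fun p => p + b p • (h p - p) with hg
  have hgs : ContDiff ℝ ∞ g := by
    rw [contDiff_iff_contDiffAt]
    intro p
    by_cases hp : ‖p‖ < η
    · have hA : ContDiffAt ℝ ∞ h p :=
        (hh p (by simpa using hp)).contDiffAt (Metric.isOpen_ball.mem_nhds (by simpa using hp))
      exact contDiffAt_id.add (hbs.contDiffAt.smul (hA.sub contDiffAt_id))
    · have hU : {q : P2 | η / 2 < ‖q‖} ∈ 𝓝 p :=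
        (isOpen_lt continuous_const continuous_norm).mem_nhds (by
          show η / 2 < ‖p‖
          linarith [not_lt.mp hp])
      have he : g =ᶠ[𝓝 p] fun q => q := by
        filter_upwards [hU] with q hq
        simp [hg, hb0 q (le_of_lt hq)]
      exact contDiffAt_id.congr_of_eventuallyEq he
  have hgeq : ∀ p : P2, ‖p‖ ≤ η / 4 → g p = h p := by
    intro p hp
    simp [hg, hb1 p hp]
  have hg0 : g 0 = 0 := by
    rw [hgeq 0 (by simp; positivity), h0]
  have hgd : fderiv ℝ g 0 = ContinuousLinearMap.id ℝ P2 := by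
    rw [← hd]
    apply Filter.EventuallyEq.fderiv_eq
    have hU : {q : P2 | ‖q‖ < η / 4} ∈ 𝓝 (0 : P2) :=
      (isOpen_lt continuous_norm continuous_const).mem_nhds (by
        show ‖(0 : P2)‖ < η / 4
        simp; positivity)
    filter_upwards [hU] with q hq
    exact hgeq q (le_of_lt hq)
  obtain ⟨ε, M, hε, hεη, hM, hMi, hMe, hMo, -, -, -⟩ := hG (fun q => g q.2)
    (hgs.comp contDiff_snd) (fun _ => hg0) (fun _ => hgd) (fun _ _ _ => rfl) (fun _ _ _ => rfl)
    (η / 4) (by positivity)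
  have hin : ContDiff ℝ ∞ (fun p : P2 => ((0 : ℝ), p)) := contDiff_const.prodMk contDiff_id
  refine ⟨M 0, ⟨⟨⟨hM.comp hin, hMi.comp hin⟩, η / 4, fun p hp => hMo 0 p (le_of_lt hp)⟩, ?_⟩,
    ε, hε, fun p hp => ?_⟩
  · rw [hMe 0 0 (by simp; positivity)]
    exact hg0
  · rw [hMe 0 p (le_of_lt hp)]
    exact hgeq p (by linarith)

end Pool.Agent.W775.DQ
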